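import Pool.Agent.H621.AF.Twr

/-!
# The Tate conjecture for the products of an arbitrary variety with almost all members of an
# independent family

Let `k` be a number field (or any field), and let `X_i`, `i ∈ J`, be a finite or infinite family of
smooth projective varieties over `k` which is **independent**: for every finite part `A` of the family
the monodromy group (the Zariski closure of the image of the Galois group, up to finite index) of the
product of the `X_i`, `i ∈ A`, is the product of the monodromy groups of the `X_i` over the
multiplicative group (which acts on the Tate twists). Nothing else is assumed on the monodromy groups:
they can be tori (complex multiplication), products, or any reductive groups.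

**Theorem.** Let `Z` be **any** smooth projective variety over `k`. There is a finite subset `S` of `J`
such that for all pairwise different `i_1, …, i_m ∈ J` which are not in `S`, and for all `n_r` and `s`

the Tate conjecture (in all codimensions) for `X_{i_1}^(n_1) × ⋯ × X_{i_m}^(n_m) × Z^s` holds
**if and only if** it holds for `Z^s` and for `X_{i_1}^(n_1), …, X_{i_m}^(n_m)`.

Moreover the same holds with `Z^s` replaced by `Z^s × Y`, where `Y` is any product of members `X_i` with
`i ∈ S`, and more generally by any variety such that the eigenvalues of the elements of the Galois group
on its cohomology are in the groups generated by those on the cohomology of `Z` and of the `X_i`,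
`i ∈ S`. So the Tate conjecture for all products of `Z` with members of the family follows from the Tate
conjecture for the products of `Z` with the members of a **finite** subfamily, if it is known for the
powers of the members.

For instance, let `X_i`, `i ∈ J`, be elliptic curves over `k`, one from each isogeny class over the
algebraic closure, with or without complex multiplication. This family is independent (Serre, Ribet,
Imai), and the Tate conjecture is known for all powers of the `X_i`. Hence for every variety `Z` over `k`
(for example a surface or an abelian variety for whose powers the Tate conjecture is known) and all
elliptic curves outside of finitely many isogeny classes the Tate conjecture for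
`X_{i_1}^(n_1) × ⋯ × X_{i_m}^(n_m) × Z^s` is equivalent to the Tate conjecture for `Z^s`.

## The formal statement

`W` is a Weil cohomology theory with algebraically closed coefficients (étale cohomology with
coefficients in the closure of `ℚ_ℓ`), `Γ` is a group (the Galois group), `χ` a character (the inverse
of the cyclotomic character), and a `GVar W Γ` is a variety with an action of `Γ` on its cohomology
algebra. `TateConjecture χ X` says that all Tate classes (elements of `H^(2j)(X)` which are multiplied
by `χ g ^ j` by all `g` in a subgroup of finite index) are linear combinations of classes of algebraic
cycles. `F i` is a set of varieties, for instance the set of the powers of `X_i`.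

The independence is expressed by elements of `Γ`: for every finite part `A` of `J` there is `g ∈ Γ`
such that (`IndependentFamily`)

* `g` is generic for all `X ∈ F i`, `i ∈ A` (`IsGeneric`): on every subspace of the cohomology of `X`
  which is stable under a subgroup `Δ` of finite index and which does not consist of sums of Tate
  classes, the powers `g ^ m ∈ Δ` have an eigenvalue no power of which is a power of `χ g`;
* the groups generated by the eigenvalues of `g` on the cohomology of the varieties in `F i` are
  independent for different `i ∈ A`, modulo roots of unity and roots of powers of `χ g`
  (`IndependentModulo`).

If the monodromy groups are reductive and independent in the above sense, every `g` whose image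
generates (up to finite index) a maximal torus of the monodromy group of the product has these
properties, and such elements exist, since the image of the Galois group is open (Serre, Bogomolov). The
variety `Z` enters through a finite-dimensional representation `V` of `Γ`, for instance `V = H(Z)`:
`EigenvaluesFrom χ V F S Z'` says that the eigenvalues of all `g` on the cohomology of `Z'` are in the
group generated by `χ g`, the eigenvalues of `g` on `V` and on the cohomology of the varieties in `F i`,
`i ∈ S`; this is so for all powers of `Z`. The exceptional set `S` depends only on the family and on
`V`.

## Proof

A Tate class `t` on `X × Y` is an equivariant map up to twist from the dual of the cohomology of `Y` to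
the cohomology of `X`. If its image `P` (a subspace stable under a subgroup of finite index) is spanned
by Tate classes, then `t` is a sum of products of Tate classes. Otherwise `X` and `Y` are linked: an
eigenvalue `x` of a power of a generic element `g` on `P`, not a root of a power of `χ g`, is the
inverse (up to a power of `χ g`) of an eigenvalue on the cohomology of `Y`. Consider finite sequences
`i_1, i_2, …` of members of the family and the products of `Z` with `F i_1`, `F i_2`, …; if the step from
`i_1, …, i_(r-1)` to `i_r` is linked for `m` values of `r` then the eigenvalues of a generic `g` on `V`
contain `m` multiplicatively independent elements: the relations are triangular, as the groups for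
different `i` are independent. Hence `m ≤ dim V`. If `S` is the set of the members of a sequence with
the maximal number of linked steps, then there are no linked steps outside of `S`.
-/

open CategoryTheory AlgebraicGeometry

universe u

namespace Pool.Agent.Results.MP_938ce2_ag.AlmostAllFactors

open Pool.Agent.H914 Pool.Agent.H914.VarClass Pool.Agent.H914.VarClass.Obj
  Pool.Agent.TH125.Gal Pool.Agent.H621.AF

/-- **The Tate conjecture for the products of an arbitrary variety with almost all members of an
independent family.** -/
theorem result {k : Type u} [Field k] {𝒱 : VarClass k} {ops : CycleOps 𝒱}
    {W : WeilCohomology.{u, 0} ops} [IsAlgClosed W.K] {Γ : Type} [Group Γ] (χ : Γ →* W.Kˣ)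
    {J : Type} (F : J → Set (GVar W Γ)) (hF : IndependentFamily χ F) (P : FinRep W.K Γ) :
    ∃ S : Finset J, ∀ Z : GVar W Γ, RespectsDegrees Z → HasPoint Z →
      EigenvaluesFrom χ P F S Z → ∀ (l : List (J × GVar W Γ)) (Y : GVar W Γ),
        IsTower F Z l Y → (∀ p ∈ l, p.1 ∉ S) →
          (TateConjecture χ Y ↔ TateConjecture χ Z ∧ ∀ p ∈ l, TateConjecture χ p.2) := by
  obtain ⟨S, hS⟩ := exists_exceptional hF P
  exact ⟨S, fun Z h1 h2 h3 l Y hY hl => tate_tower hF hS h1 h2 h3 hY hl⟩

end Pool.Agent.Results.MP_938ce2_ag.AlmostAllFactors
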