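import Pool.Agent.H802T.Tower
import Pool.Agent.H802T.Dim

/-!
# The Tate conjecture for products of powers of varieties with big and unrelated monodromy with
# arbitrary varieties of small cohomology

Let `W` be a Weil cohomology theory with algebraically closed coefficients (étale cohomology with
coefficients in the closure of `ℚ_ℓ`) on a class of smooth proper varieties over the algebraic
closure of a number field `F`, or of a finitely generated field, with an action of a group `Γ`
(the Galois group of `F`) on the cohomology of the varieties under consideration.

Let `X_i` be finitely many varieties for which numerical and homological equivalence coincide and
whose transcendental cohomology `T_i` (the orthogonal complement of all algebraic classes) is in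
the middle degree. Let the monodromy be big: the Lie algebra of the symplectic or
orthogonal group of the intersection form on `T_i` is not commutative and irreducible as a
representation of `Γ` (`Big`), and some element of `Γ` has two eigenvalues on `T_i` whose quotient is
not a root of unity (`Hyperbolic`; this only says that the image of `Γ` is infinite modulo scalars).
Examples: curves of genus `n` for which the image of the Galois group on the Tate module of the
Jacobian is open in the group of symplectic similitudes (the Sym²-part is irreducible), for instance
all curves of odd genus whose Jacobian has no endomorphisms except the integers (Serre);
hypersurfaces and complete intersections of any dimension, and surfaces with `H^1 = 0`, with big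
monodromy.

Let `Z` be an arbitrary variety, whose cohomology is generated by representations `G_j` with
nondegenerate symmetric or alternating forms which are respected up to scalars: for each nonzero
class `x` there is a map from the cohomology to multilinear forms on the `G_j`, equivariant up to
scalars for a subgroup of finite index, which does not kill `x` (`GeneratedBy`). For example, the
`G_j` can be the cohomology groups `H^j(Z)`, with the forms given by the hard Lefschetz theorem; or
only those needed to generate the others, such as `H^1` for products of curves and abelian varieties,
or the transcendental part of `H^2` for K3 surfaces. Nothing else is assumed on `Z`, not even that the
Galois representations are semisimple.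

Let the `T_i` be *unrelated* to the `G_j` and to each other. A representation `Q` is unrelated to `T`
in each of the following cases (`Unrelated`).

* For some element `g` of `Γ`, some additive function `θ` on the multiplicative group of the
  coefficients and some `k` the part of degree `k` of the Lie algebra of the orthogonal or symplectic
  group of `Q` has a smaller dimension than the corresponding part for `T` (`Smaller`). The grading is
  given by the values of `θ` at the eigenvalues of `g`. If `θ = 0` this compares the dimensions
  `d (d - ε) / 2` of the groups (`d` the dimension of the representation, `ε = 1` for symmetric and
  `ε = -1` for alternating forms; this is the second part of the result). If `g` is a Frobenius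
  element and `θ` a `p`-adic valuation this compares numbers of pairs of slopes. For example:
  `T` has the slopes `0`, `1`, both with multiplicity `n`, and `Q` is of K3 type with an ordinary
  place and Hodge numbers `1, m, 1`: then `Q` is unrelated to `T` if `m < n (n + 1) / 2`.
* `Q` is potentially abelian (for instance of CM type).
* `Q` has big monodromy, and for some `g`, `θ` and `k` the part of degree `k` for `Q` has a larger
  dimension than the part for `T`. So two representations with big monodromy are unrelated if
  their dimensions are different (and not `2 n`, `2 n + 1`).
* `Q` has big monodromy, the same dimension (not eight in the orthogonal case, because of triality)
  and the same sign as `T`, and `Q` and `T` are not isomorphic up to scalars (`Proportional`). For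
  instance the cohomology groups `H^1` of two curves of genus `n` with open image, whose Jacobians are
  not isogenous over the algebraic closure (Faltings).

**Result.** Let `Y` be the product of `Z` and of arbitrary powers of the `X_i` (if the dimension of
`X_i` is even: with less factors than the dimension of `T_i`). Then the Tate conjecture holds for `Y`
in all codimensions if and only if it holds for `Z`. In particular (`Z` a point) it holds for
all products of powers of the `X_i`.

There is no condition on places of bad reduction, or on the action of special elements on the other
factors, as in the theorems on products with nodal reduction or elements of small rank.

The proof. Let `L` be the Lie algebra of the families of skew operators on all the representations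
`T_i`, `G_j` which map all multilinear forms on these representations, that are multiplied by scalars
by a subgroup of finite index of `Γ`, to multiples of themselves. For an element `g` of `Γ` and an
additive function `θ` the operators with the eigenvalues `θ(α)`, `α` an eigenvalue of `g`, normalised
to be skew, belong to `L`. So the image of `L` in the Lie algebra of `T_i` is everything. If the
ideal of the elements whose component in `G_j` vanishes were zero in `T_i` then the component of
degree `k` of the Lie algebra of `T_i` would be a quotient of a subspace of the component of degree
`k` of the Lie algebra for `G_j`, for all gradings; and this Lie algebra would not be
commutative. If `G_j` (or another `T_j`) is big then `L`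
would be the graph of an isomorphism of the orthogonal or symplectic Lie algebras. The trace of the
product of four brackets on such a Lie algebra is `(d - 8 ε) tr(XYZW)` plus terms which depend only on
the traces of products of two elements (`PRep.quart`). So such an isomorphism of Lie algebras of the
same type, `d ≠ 8 ε`, preserves the traces of products of four elements; therefore it extends to an
isomorphism of the algebras of endomorphisms, and it is given by a linear isomorphism of the
representations, which is compatible with `Γ` up to scalars. So the ideals are everything, and
since commutators of elements which vanish in `G_j` and in `G_j'` vanish in both, `L` contains the Lie algebra of `T_i`, with components zero elsewhere. It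
kills all equivariant multilinear maps from `T_i` to the cohomology of the other factors, and the
first fundamental theorem for the symplectic and orthogonal groups shows that the Tate classes are
combinations of products of algebraic classes of the factors `X_i`, of transcendental parts of
diagonals of `X_i × X_i` and of Tate classes of the remaining factor.
-/

universe u

namespace Pool.Agent.Results.MP_938ce2_ag.UnrelatedMonodromy

open Pool.Agent.H914 Pool.Agent.H281R3.HT Pool.Agent.TH125.Gal Pool.Agent.H802T

/-- **The Tate conjecture for products with powers of varieties with big and unrelated monodromy.** -/
theorem result {k : Type u} [Field k] {𝒱 : VarClass k} {ops : CycleOps 𝒱}
    (W : WeilCohomology.{u, 0} ops) [IsAlgClosed W.K] {Γ : Type} [Group Γ] (χ : Γ →* W.Kˣ) :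
    (∀ {ι N : Type} [Finite ι] [Finite N] (X : ι → GVar W Γ) (T : ι → PRep W.K Γ)
      (G : N → PRep W.K Γ) (Z : GVar W Γ), Independent χ X T G → GeneratedBy G Z →
        ∀ (S : Set ι) (Y : GVar W Γ), Tower X T Z S Y → (TateConjecture χ Y ↔ TateConjecture χ Z)) ∧
    ∀ Q P : PRep W.K Γ, Q.size < P.size → Smaller Q P :=
  ⟨fun _ _ _ _ h hZ _ _ hY => (tate_towers h hZ hY).2, fun _ _ h => smaller_of_size h⟩

end Pool.Agent.Results.MP_938ce2_ag.UnrelatedMonodromy
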